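import Pool.Agent.Results.MP_d9ed39_co.HigherJoints

/-!
# Joints in matroids: the exponent tends to `3/2`

For `2 k ≤ n` the maximal number `J n L` of `n`-dimensional joints formed by `L` lines of a finite
simple matroid is at most `4 n L ^ (1 + k / (2 k - 1))`, `1 + k / (2 k - 1) = 3/2 + 1 / (4 k - 2)`.
So the exponent is `5/3` for `n = 4, 5`, `8/5` for `n = 6, 7`, `11/7` for `n = 8, 9`, and it tends
to `3/2` as `n` tends to infinity.

Idea.  Prune the system, so that every line through a joint contains at least `δ = N / (2 L)`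
joints (`N` the number of joints).  Every joint `x` in a flat `F` of rank at most `n` has a line
`t x` which meets `F` in `x` only; these lines are distinct, so `F` contains at most `L` joints.
Each `t x` contains at least `δ - 1` other joints `y`, and through each of them passes another
line.  So some line `c` meets at least `|F| (δ - 1) / L` of the lines `t x` away from `F`, and all
of these lie in the flat spanned by `F` and `c`, whose rank is larger by at most two and which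
contains at least `|F| (δ - 1) δ / (n L)` joints.  Starting with a line and making `k - 1` steps
gives `δ ((δ - 1) δ / (n L)) ^ (k - 1) ≤ L`.
-/

namespace Pool.Agent.Y249.Joints.ExponentThreeHalves

open Set Pool.Agent.Results.MP_d9ed39_co.HigherJoints

section core

open Classical in
/-- Pruning: a nonempty subsystem in which every line through a joint contains many joints. -/
lemma prune {α β : Type*} (n : ℕ) (S : Finset α) (lx : α → Fin n → β) (𝔏 : Finset β)
    (h1 : ∀ x ∈ S, ∀ i, lx x i ∈ 𝔏) (hS : S.Nonempty) :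
    ∃ T : Finset α, T ⊆ S ∧ T.Nonempty ∧ ∀ x ∈ T, ∀ i, (S.card : ℝ) / (2 * (𝔏.card : ℝ)) ≤
      ((T.filter (fun y => ∃ j, lx y j = lx x i)).card : ℝ) := by
  classical
  set δ : ℝ := (S.card : ℝ) / (2 * (𝔏.card : ℝ)) with hδ
  have hδ0 : 0 ≤ δ := by positivity
  set li : Finset α → Finset β := fun T => T.biUnion (fun x => Finset.univ.image (lx x)) with hli
  set φ : Finset α → ℝ := fun T => (T.card : ℝ) - δ * ((li T).card : ℝ) with hφ
  obtain ⟨T, hT, hmax⟩ := Finset.exists_max_image S.powerset φ ⟨S, Finset.mem_powerset_self S⟩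
  have hTS := Finset.mem_powerset.1 hT
  have hSpos : (0 : ℝ) < S.card := by exact_mod_cast hS.card_pos
  have hφS : 0 < φ S := by
    have hsub : li S ⊆ 𝔏 := by
      intro t ht
      simp only [hli, Finset.mem_biUnion, Finset.mem_image, Finset.mem_univ, true_and] at ht
      obtain ⟨x, hx, i, rfl⟩ := ht
      exact h1 x hx i
    have hc : ((li S).card : ℝ) ≤ 𝔏.card := by exact_mod_cast Finset.card_le_card hsub
    have h2 : δ * ((li S).card : ℝ) ≤ (S.card : ℝ) / 2 := by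
      rcases Nat.eq_zero_or_pos 𝔏.card with h0 | h0
      · rw [hδ, h0]; simp; positivity
      · have h0' : (0 : ℝ) < 𝔏.card := by exact_mod_cast h0
        calc δ * ((li S).card : ℝ) ≤ δ * 𝔏.card := mul_le_mul_of_nonneg_left hc hδ0
          _ = (S.card : ℝ) / 2 := by rw [hδ]; field_simp
    simp only [hφ]
    linarith
  have hφT : 0 < φ T := lt_of_lt_of_le hφS (hmax S (Finset.mem_powerset_self S))
  refine ⟨T, hTS, ?_, ?_⟩
  · rw [Finset.nonempty_iff_ne_empty]
    rintro rfl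
    simp [hφ, hli] at hφT
  · intro x hx i
    by_contra hcon
    push Not at hcon
    set T' := T.filter (fun y => ¬ ∃ j, lx y j = lx x i) with hT'
    have hle := hmax T' (Finset.mem_powerset.2 ((Finset.filter_subset _ _).trans hTS))
    have hmem : lx x i ∈ li T := by
      simp only [hli, Finset.mem_biUnion, Finset.mem_image, Finset.mem_univ, true_and]
      exact ⟨x, hx, i, rfl⟩
    have hsub : li T' ⊆ (li T).erase (lx x i) := by
      intro t ht
      simp only [hli, Finset.mem_biUnion, Finset.mem_image, Finset.mem_univ, true_and] at ht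
      obtain ⟨y, hy, j, rfl⟩ := ht
      rw [hT', Finset.mem_filter] at hy
      rw [Finset.mem_erase]
      refine ⟨fun h => hy.2 ⟨j, h⟩, ?_⟩
      simp only [hli, Finset.mem_biUnion, Finset.mem_image, Finset.mem_univ, true_and]
      exact ⟨y, hy.1, j, rfl⟩
    have hc1 : (li T').card + 1 ≤ (li T).card := by
      have h3 := Finset.card_le_card hsub
      rw [Finset.card_erase_of_mem hmem] at h3
      have h4 : 0 < (li T).card := Finset.card_pos.2 ⟨_, hmem⟩
      omega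
    have hc1' : ((li T').card : ℝ) + 1 ≤ (li T).card := by exact_mod_cast hc1
    have hc2 : (T.filter (fun y => ∃ j, lx y j = lx x i)).card + T'.card = T.card := by
      rw [hT']
      exact Finset.card_filter_add_card_filter_not (s := T) (fun y => ∃ j, lx y j = lx x i)
    have hc2' : ((T.filter (fun y => ∃ j, lx y j = lx x i)).card : ℝ) + T'.card = T.card := by
      exact_mod_cast hc2
    simp only [hφ] at hle
    have h5 : δ * (((li T').card : ℝ) + 1) ≤ δ * (li T).card := mul_le_mul_of_nonneg_left hc1' hδ0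
    linarith

variable {α : Type*} {M : Matroid α}

open Classical in
/-- One step: from a flat of rank at most `r ≤ n` to a flat of rank at most `r + 2`. -/
lemma step (hs : IsSimple M) (𝔏 : Finset (Set α)) (hL : ∀ l ∈ 𝔏, IsLine M l) (n : ℕ)
    (hn2 : 2 ≤ n) (S : Finset α) (lx : α → Fin n → Set α)
    (h1 : ∀ x ∈ S, ∀ i, lx x i ∈ 𝔏) (h2 : ∀ x ∈ S, ∀ i, x ∈ lx x i)
    (h3 : ∀ x ∈ S, ((n + 1 : ℕ) : ℕ∞) ≤ M.eRk (⋃ i, lx x i))
    (δ : ℝ) (hδ : 1 ≤ δ)
    (hdeg : ∀ x ∈ S, ∀ i, δ ≤ ((S.filter (fun y => ∃ j, lx y j = lx x i)).card : ℝ))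
    (F : Set α) (hF : M.IsFlat F) (r : ℕ) (hr : M.eRk F ≤ (r : ℕ∞)) (hrn : r ≤ n) :
    ((S.filter (· ∈ F)).card : ℝ) ≤ 𝔏.card ∧
    ∃ F' : Set α, M.IsFlat F' ∧ M.eRk F' ≤ ((r + 2 : ℕ) : ℕ∞) ∧
      ((S.filter (· ∈ F)).card : ℝ) * (δ - 1) * δ ≤
        n * 𝔏.card * ((S.filter (· ∈ F')).card : ℝ) := by
  classical
  have hi0 : Nonempty (Fin n) := ⟨⟨0, by omega⟩⟩
  -- a line through `x` which is not contained in `F`
  have hlon : ∀ x, ∃ i : Fin n, x ∈ S → ¬ lx x i ⊆ F := by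
    intro x
    by_contra hcon
    push Not at hcon
    have hxS : x ∈ S := (hcon (Classical.arbitrary _)).1
    have h4 := ((h3 x hxS).trans (M.eRk_mono (iUnion_subset fun i => (hcon i).2))).trans hr
    have h5 : n + 1 ≤ r := by exact_mod_cast h4
    omega
  choose i0 hi0' using hlon
  set t : α → Set α := fun x => lx x (i0 x) with ht
  have htL : ∀ x ∈ S, t x ∈ 𝔏 := fun x hx => h1 x hx _
  have htx : ∀ x ∈ S, x ∈ t x := fun x hx => h2 x hx _
  have htF : ∀ x ∈ S, ¬ t x ⊆ F := fun x hx => hi0' x hx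
  have hone : ∀ x ∈ S, x ∈ F → ∀ y ∈ t x, y ∈ F → y = x := by
    intro x hx hxF y hy hyF
    by_contra hne
    exact htF x hx (line_subset hs (hL _ (htL x hx)) hF (htx x hx) hy hxF hyF (Ne.symm hne))
  set J : Finset α := S.filter (· ∈ F) with hJ
  have memJ : ∀ x, x ∈ J ↔ x ∈ S ∧ x ∈ F := fun x => by simp [hJ]
  have hinj : ∀ x ∈ J, ∀ y ∈ J, t x = t y → x = y := by
    intro x hx y hy hxy
    rw [memJ] at hx hy
    exact (hone x hx.1 hx.2 y (hxy ▸ htx y hy.1) hy.2).symm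
  have hJL : J.card ≤ 𝔏.card :=
    Finset.card_le_card_of_injOn t (fun x hx => htL x ((memJ x).1 hx).1)
      (fun x hx y hy h => hinj x hx y hy h)
  refine ⟨by exact_mod_cast hJL, ?_⟩
  rcases J.eq_empty_or_nonempty with hJe | hJne
  · refine ⟨F, hF, hr.trans (by exact_mod_cast Nat.le_add_right r 2), ?_⟩
    rw [hJe]
    simp only [Finset.card_empty, Nat.cast_zero, zero_mul]
    positivity
  -- another line through `y`
  have hoth : ∀ x y, ∃ j : Fin n, x ∈ S → y ∈ S → lx y j ≠ t x := by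
    intro x y
    by_contra hcon
    push Not at hcon
    obtain ⟨hxS, hyS, _⟩ := hcon (Classical.arbitrary _)
    have h4 := (h3 y hyS).trans (M.eRk_mono (iUnion_subset fun i => (hcon i).2.2.subset))
    rw [(hL _ (htL x hxS)).2] at h4
    have h5 : n + 1 ≤ 2 := by exact_mod_cast h4
    omega
  choose jc hjc using hoth
  set c : α × α → Set α := fun p => lx p.2 (jc p.1 p.2) with hc
  set P : Finset (α × α) := (J ×ˢ S).filter (fun p => p.2 ≠ p.1 ∧ ∃ j, lx p.2 j = t p.1) with hP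
  have memP : ∀ p, p ∈ P ↔ (p.1 ∈ J ∧ p.2 ∈ S) ∧ p.2 ≠ p.1 ∧ ∃ j, lx p.2 j = t p.1 := by
    intro p; rw [hP, Finset.mem_filter, Finset.mem_product]
  -- the number of pairs
  have hPcard : (J.card : ℝ) * (δ - 1) ≤ P.card := by
    have h4 : P.card = ∑ x ∈ J, (P.filter (fun p => p.1 = x)).card :=
      Finset.card_eq_sum_card_fiberwise (f := Prod.fst) (t := J)
        (fun p hp => ((memP p).1 hp).1.1)
    have h5 : ∀ x ∈ J, δ - 1 ≤ ((P.filter (fun p => p.1 = x)).card : ℝ) := by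
      intro x hx
      have hxS := ((memJ x).1 hx).1
      have h6 : ((S.filter (fun y => ∃ j, lx y j = t x)).erase x).card ≤
          (P.filter (fun p => p.1 = x)).card := by
        apply Finset.card_le_card_of_injOn (fun y => (x, y))
        · intro y hy
          rw [Finset.mem_coe, Finset.mem_erase, Finset.mem_filter] at hy
          rw [Finset.mem_coe, Finset.mem_filter, memP]
          exact ⟨⟨⟨hx, hy.2.1⟩, hy.1, hy.2.2⟩, rfl⟩
        · intro y _ y' _ h
          exact (Prod.mk.inj h).2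
      have h7 := hdeg x hxS (i0 x)
      have h8 : (S.filter (fun y => ∃ j, lx y j = t x)).card ≤
          ((S.filter (fun y => ∃ j, lx y j = t x)).erase x).card + 1 := by
        have := Finset.pred_card_le_card_erase (s := S.filter (fun y => ∃ j, lx y j = t x))
          (a := x)
        omega
      have h9 : ((S.filter (fun y => ∃ j, lx y j = t x)).card : ℝ) ≤
          (P.filter (fun p => p.1 = x)).card + 1 := by
        exact_mod_cast h8.trans (Nat.add_le_add_right h6 1)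
      have h10 : δ ≤ ((S.filter (fun y => ∃ j, lx y j = t x)).card : ℝ) := h7
      linarith
    rw [h4]
    push_cast
    calc (J.card : ℝ) * (δ - 1) = ∑ _x ∈ J, (δ - 1) := by
          rw [Finset.sum_const, nsmul_eq_mul]
      _ ≤ _ := Finset.sum_le_sum h5
  -- pigeonhole
  have hLne : 𝔏.Nonempty := by
    obtain ⟨x, hx⟩ := hJne
    exact ⟨t x, htL x ((memJ x).1 hx).1⟩
  obtain ⟨c0, hc0, hmax⟩ := Finset.exists_max_image 𝔏 (fun l => (P.filter (fun p => c p = l)).card)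
    hLne
  have hPle : P.card ≤ 𝔏.card * (P.filter (fun p => c p = c0)).card := by
    rw [Finset.card_eq_sum_card_fiberwise (f := c) (t := 𝔏)
      (fun p hp => h1 _ ((memP p).1 hp).1.2 _)]
    calc ∑ l ∈ 𝔏, (P.filter (fun p => c p = l)).card
        ≤ ∑ _l ∈ 𝔏, (P.filter (fun p => c p = c0)).card := Finset.sum_le_sum hmax
      _ = _ := by rw [Finset.sum_const, smul_eq_mul]
  set X : Finset α := J.filter (fun x => ∃ y, (x, y) ∈ P ∧ c (x, y) = c0) with hX
  have hfib : (P.filter (fun p => c p = c0)).card ≤ X.card := by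
    apply Finset.card_le_card_of_injOn Prod.fst
    · intro p hp
      rw [Finset.mem_coe, Finset.mem_filter] at hp
      rw [Finset.mem_coe, hX, Finset.mem_filter]
      exact ⟨((memP p).1 hp.1).1.1, p.2, hp.1, hp.2⟩
    · intro p hp q hq hpq
      rw [Finset.mem_coe, Finset.mem_filter] at hp hq
      have hp' := (memP p).1 hp.1
      have hq' := (memP q).1 hq.1
      refine Prod.ext hpq ?_
      by_contra hne
      obtain ⟨⟨hpJ, hpS⟩, _, j, hj⟩ := hp'
      obtain ⟨⟨hqJ, hqS⟩, _, j', hj'⟩ := hq'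
      have hpS1 := ((memJ _).1 hpJ).1
      have a1 : p.2 ∈ t p.1 := hj ▸ h2 _ hpS j
      have a2 : q.2 ∈ t p.1 := by
        have : q.2 ∈ t q.1 := hj' ▸ h2 _ hqS j'
        rw [hpq]; exact this
      have a3 : p.2 ∈ c0 := hp.2 ▸ h2 _ hpS _
      have a4 : q.2 ∈ c0 := hq.2 ▸ h2 _ hqS _
      have h6 := lines_eq hs (hL _ (htL _ hpS1)) (hL _ hc0) a1 a2 a3 a4 hne
      exact hjc p.1 p.2 hpS1 hpS (hp.2.trans h6.symm)
  set F' : Set α := M.closure (F ∪ c0) with hF'
  have hF'flat : M.IsFlat F' := M.isFlat_closure _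
  have hF'rk : M.eRk F' ≤ ((r + 2 : ℕ) : ℕ∞) := by
    rw [hF', M.eRk_closure_eq]
    calc M.eRk (F ∪ c0) ≤ M.eRk F + M.eRk c0 := M.eRk_union_le_eRk_add_eRk _ _
      _ ≤ (r : ℕ∞) + 2 := by rw [(hL _ hc0).2]; gcongr
      _ = ((r + 2 : ℕ) : ℕ∞) := by push_cast; rfl
  have hFF' : F ⊆ F' := M.subset_closure_of_subset' subset_union_left hF.subset_ground
  have hcF' : c0 ⊆ F' :=
    M.subset_closure_of_subset' subset_union_right (hL _ hc0).1.subset_ground
  have hXF : ∀ x ∈ X, t x ⊆ F' := by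
    intro x hx
    rw [hX, Finset.mem_filter] at hx
    obtain ⟨hxJ, y, hyP, hyc⟩ := hx
    obtain ⟨⟨_, hyS⟩, hne, j, hj⟩ := (memP _).1 hyP
    have hxJ' := (memJ x).1 hxJ
    have a1 : y ∈ t x := hj ▸ h2 _ hyS j
    have a2 : y ∈ c0 := hyc ▸ h2 _ hyS _
    exact line_subset hs (hL _ (htL x hxJ'.1)) hF'flat (htx x hxJ'.1) a1 (hFF' hxJ'.2) (hcF' a2)
      (Ne.symm hne)
  refine ⟨F', hF'flat, hF'rk, ?_⟩
  set J' : Finset α := S.filter (· ∈ F') with hJ'
  -- double counting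
  have hdc : (X.card : ℝ) * δ ≤ n * (J'.card : ℝ) := by
    have e1 : ∑ x ∈ X, (J'.filter (fun z => ∃ j, lx z j = t x)).card =
        ∑ z ∈ J', (X.filter (fun x => ∃ j, lx z j = t x)).card :=
      Finset.sum_card_bipartiteAbove_eq_sum_card_bipartiteBelow
        (fun x z => ∃ j, lx z j = t x)
    have e2 : ∀ x ∈ X, δ ≤ ((J'.filter (fun z => ∃ j, lx z j = t x)).card : ℝ) := by
      intro x hx
      have hxJ : x ∈ J := (Finset.mem_filter.1 hx).1
      have hxS := ((memJ x).1 hxJ).1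
      refine (hdeg x hxS (i0 x)).trans ?_
      have e3 : (S.filter (fun y => ∃ j, lx y j = lx x (i0 x))) ⊆
          J'.filter (fun z => ∃ j, lx z j = t x) := by
        intro z hz
        rw [Finset.mem_filter] at hz
        obtain ⟨hzS, j, hj⟩ := hz
        have hzt : z ∈ t x := by
          have h0 := h2 z hzS j
          rw [hj] at h0
          exact h0
        rw [Finset.mem_filter, hJ', Finset.mem_filter]
        exact ⟨⟨hzS, hXF x hx hzt⟩, j, hj⟩
      exact_mod_cast Finset.card_le_card e3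
    have e4 : ∀ z ∈ J', (X.filter (fun x => ∃ j, lx z j = t x)).card ≤ n := by
      intro z _
      have e5 : (X.filter (fun x => ∃ j, lx z j = t x)).card ≤
          (Finset.univ.image (lx z)).card := by
        apply Finset.card_le_card_of_injOn t
        · intro x hx
          rw [Finset.mem_coe, Finset.mem_filter] at hx
          obtain ⟨_, j, hj⟩ := hx
          rw [Finset.mem_coe, Finset.mem_image]
          exact ⟨j, Finset.mem_univ _, hj⟩
        · intro x hx y hy hxy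
          rw [Finset.mem_coe, Finset.mem_filter] at hx hy
          exact hinj x (Finset.mem_filter.1 hx.1).1 y (Finset.mem_filter.1 hy.1).1 hxy
      refine e5.trans (Finset.card_image_le.trans ?_)
      simp
    calc (X.card : ℝ) * δ = ∑ _x ∈ X, δ := by rw [Finset.sum_const, nsmul_eq_mul]
      _ ≤ ∑ x ∈ X, ((J'.filter (fun z => ∃ j, lx z j = t x)).card : ℝ) := Finset.sum_le_sum e2
      _ = ((∑ z ∈ J', (X.filter (fun x => ∃ j, lx z j = t x)).card : ℕ) : ℝ) := by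
          rw [← e1]; push_cast; rfl
      _ ≤ ((∑ _z ∈ J', n : ℕ) : ℝ) := by exact_mod_cast Finset.sum_le_sum e4
      _ = n * (J'.card : ℝ) := by rw [Finset.sum_const, smul_eq_mul]; push_cast; ring
  have hδ0 : 0 ≤ δ := by linarith
  have hP2 : (P.card : ℝ) ≤ 𝔏.card * X.card := by
    exact_mod_cast hPle.trans (Nat.mul_le_mul_left _ hfib)
  calc (J.card : ℝ) * (δ - 1) * δ ≤ (P.card : ℝ) * δ := mul_le_mul_of_nonneg_right hPcard hδ0
    _ ≤ (𝔏.card * X.card) * δ := mul_le_mul_of_nonneg_right hP2 hδ0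
    _ = 𝔏.card * (X.card * δ) := by ring
    _ ≤ 𝔏.card * (n * (J'.card : ℝ)) := mul_le_mul_of_nonneg_left hdc (by positivity)
    _ = n * 𝔏.card * (J'.card : ℝ) := by ring

open Classical in
/-- Iteration: a flat of rank at most `2 (j + 1)` with many joints. -/
lemma iterate (hs : IsSimple M) (𝔏 : Finset (Set α)) (hL : ∀ l ∈ 𝔏, IsLine M l) (n : ℕ)
    (hn2 : 2 ≤ n) (S : Finset α) (hS : S.Nonempty) (lx : α → Fin n → Set α)
    (h1 : ∀ x ∈ S, ∀ i, lx x i ∈ 𝔏) (h2 : ∀ x ∈ S, ∀ i, x ∈ lx x i)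
    (h3 : ∀ x ∈ S, ((n + 1 : ℕ) : ℕ∞) ≤ M.eRk (⋃ i, lx x i))
    (δ : ℝ) (hδ : 1 ≤ δ)
    (hdeg : ∀ x ∈ S, ∀ i, δ ≤ ((S.filter (fun y => ∃ j, lx y j = lx x i)).card : ℝ)) :
    ∀ j : ℕ, 2 * (j + 1) ≤ n → ∃ F : Set α, M.IsFlat F ∧ M.eRk F ≤ ((2 * (j + 1) : ℕ) : ℕ∞) ∧
      δ * (((δ - 1) * δ) / (n * 𝔏.card)) ^ j ≤ ((S.filter (· ∈ F)).card : ℝ) := by
  classical
  have hLpos : (0 : ℝ) < 𝔏.card := by
    obtain ⟨x, hx⟩ := hS
    have : 0 < 𝔏.card := Finset.card_pos.2 ⟨_, h1 x hx ⟨0, by omega⟩⟩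
    exact_mod_cast this
  have hnpos : (0 : ℝ) < n := by exact_mod_cast (by omega : 0 < n)
  intro j
  induction j with
  | zero =>
    intro _
    obtain ⟨x, hx⟩ := hS
    set l := lx x ⟨0, by omega⟩ with hl
    have hlL := h1 x hx ⟨0, by omega⟩
    refine ⟨l, (hL _ hlL).1, ?_, ?_⟩
    · rw [(hL _ hlL).2]; norm_num
    · rw [pow_zero, mul_one]
      refine (hdeg x hx ⟨0, by omega⟩).trans ?_
      have h4 : (S.filter (fun y => ∃ j, lx y j = lx x ⟨0, by omega⟩)) ⊆ S.filter (· ∈ l) := by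
        intro y hy
        rw [Finset.mem_filter] at hy
        obtain ⟨hyS, i, hi⟩ := hy
        rw [Finset.mem_filter]
        have h0 := h2 y hyS i
        rw [hi] at h0
        exact ⟨hyS, h0⟩
      exact_mod_cast Finset.card_le_card h4
  | succ j ih =>
    intro hj
    obtain ⟨F, hF, hFr, hFc⟩ := ih (by omega)
    obtain ⟨_, F', hF', hF'r, hF'c⟩ := step hs 𝔏 hL n hn2 S lx h1 h2 h3 δ hδ hdeg F hF
      (2 * (j + 1)) hFr (by omega)
    refine ⟨F', hF', ?_, ?_⟩
    · have : 2 * (j + 1) + 2 = 2 * (j + 1 + 1) := by ring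
      rw [← this]; exact hF'r
    · set a : ℝ := ((δ - 1) * δ) / (n * 𝔏.card) with ha
      have ha0 : 0 ≤ a := by
        rw [ha]
        apply div_nonneg (mul_nonneg (by linarith) (by linarith)) (by positivity)
      have h5 : a * (n * 𝔏.card) = (δ - 1) * δ := by
        rw [ha]; field_simp
      have h6 : ((S.filter (· ∈ F)).card : ℝ) * a ≤ ((S.filter (· ∈ F')).card : ℝ) := by
        have h7 : (((S.filter (· ∈ F)).card : ℝ) * a) * (n * 𝔏.card) ≤
            ((S.filter (· ∈ F')).card : ℝ) * (n * 𝔏.card) := by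
          calc (((S.filter (· ∈ F)).card : ℝ) * a) * (n * 𝔏.card)
              = ((S.filter (· ∈ F)).card : ℝ) * (δ - 1) * δ := by rw [mul_assoc, h5]; ring
            _ ≤ n * 𝔏.card * ((S.filter (· ∈ F')).card : ℝ) := hF'c
            _ = _ := by ring
        exact le_of_mul_le_mul_right h7 (by positivity)
      calc δ * a ^ (j + 1) = (δ * a ^ j) * a := by ring
        _ ≤ ((S.filter (· ∈ F)).card : ℝ) * a := mul_le_mul_of_nonneg_right hFc ha0
        _ ≤ _ := h6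

/-- The numerical part. -/
lemma numeric (n k : ℕ) (hk : 1 ≤ k) (hn2 : 2 ≤ n) (L δ : ℝ) (hLpos : 1 ≤ L) (hδ2 : 2 ≤ δ)
    (hmain : δ * (((δ - 1) * δ) / (n * L)) ^ (k - 1) ≤ L) :
    δ ≤ 2 * n * L ^ ((k : ℝ) / (2 * k - 1)) := by
  have hk' : (1 : ℝ) ≤ k := by exact_mod_cast hk
  have hn' : (2 : ℝ) ≤ n := by exact_mod_cast hn2
  have hL0 : 0 < L := by linarith
  have hδ0 : 0 < δ := by linarith
  have hnL : 0 < (n : ℝ) * L := by positivity
  have hnL2 : 0 < 2 * (n : ℝ) * L := by positivity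
  by_contra hcon
  push Not at hcon
  have ha : δ ^ 2 / (2 * n * L) ≤ ((δ - 1) * δ) / (n * L) := by
    rw [div_le_div_iff₀ hnL2 hnL]
    have h4 : δ ^ 2 ≤ 2 * ((δ - 1) * δ) := by nlinarith
    nlinarith [mul_le_mul_of_nonneg_right h4 hnL.le]
  have h6 : δ * (δ ^ 2 / (2 * n * L)) ^ (k - 1) ≤ L := by
    refine le_trans ?_ hmain
    apply mul_le_mul_of_nonneg_left _ (by linarith)
    exact pow_le_pow_left₀ (by positivity) ha _
  have h7 : δ ^ (2 * k - 1) ≤ L * (2 * n * L) ^ (k - 1) := by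
    have h8 : δ * (δ ^ 2 / (2 * n * L)) ^ (k - 1) * (2 * n * L) ^ (k - 1) = δ ^ (2 * k - 1) := by
      rw [div_pow, mul_assoc, div_mul_cancel₀ _ (pow_pos hnL2 _).ne', ← pow_mul, ← pow_succ']
      congr 1
      omega
    rw [← h8]
    exact mul_le_mul_of_nonneg_right h6 (pow_pos hnL2 _).le
  set B : ℝ := 2 * n * L ^ ((k : ℝ) / (2 * k - 1)) with hB
  have hB0 : 0 < B := by
    rw [hB]
    exact mul_pos (by linarith) (Real.rpow_pos_of_pos hL0 _)
  have h9 : B ^ (2 * k - 1) = (2 * n : ℝ) ^ (2 * k - 1) * L ^ k := by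
    rw [hB, mul_pow, ← Real.rpow_natCast (L ^ ((k : ℝ) / (2 * k - 1))), ← Real.rpow_mul hL0.le]
    congr 1
    rw [← Real.rpow_natCast L k]
    congr 1
    have : ((2 * k - 1 : ℕ) : ℝ) = 2 * k - 1 := by
      rw [Nat.cast_sub (by omega)]; push_cast; ring
    rw [this]
    exact div_mul_cancel₀ _ (by linarith)
  have h10 : L * (2 * n * L) ^ (k - 1) ≤ B ^ (2 * k - 1) := by
    rw [h9, mul_pow]
    have h11 : L * ((2 * n : ℝ) ^ (k - 1) * L ^ (k - 1)) = (2 * n : ℝ) ^ (k - 1) * L ^ k := by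
      have : L ^ k = L * L ^ (k - 1) := by
        rw [← pow_succ']; congr 1; omega
      rw [this]; ring
    rw [h11]
    apply mul_le_mul_of_nonneg_right _ (pow_pos hL0 _).le
    exact pow_le_pow_right₀ (by linarith) (by omega)
  have h12 : B ^ (2 * k - 1) < δ ^ (2 * k - 1) :=
    pow_lt_pow_left₀ hcon hB0.le (by omega)
  linarith

/-- **The bound.** -/
theorem bound (hs : IsSimple M) (𝔏 : Finset (Set α)) (hL : ∀ l ∈ 𝔏, IsLine M l) (n k : ℕ)
    (hk : 1 ≤ k) (hkn : 2 * k ≤ n) (S : Finset α)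
    (hS : ∀ x ∈ S, IsJoint M (𝔏 : Set (Set α)) n x) :
    (S.card : ℝ) ≤ 4 * n * (𝔏.card : ℝ) ^ (1 + (k : ℝ) / (2 * k - 1)) := by
  classical
  have hn2 : 2 ≤ n := by omega
  have hk' : (1 : ℝ) ≤ k := by exact_mod_cast hk
  have hn' : (2 : ℝ) ≤ n := by exact_mod_cast hn2
  rcases S.eq_empty_or_nonempty with rfl | hSne
  · simp only [Finset.card_empty, Nat.cast_zero]
    positivity
  have hS' : ∀ x, ∃ l : Fin n → Set α, x ∈ S → (∀ i, l i ∈ 𝔏) ∧ (∀ i, x ∈ l i) ∧
      ((n + 1 : ℕ) : ℕ∞) ≤ M.eRk (⋃ i, l i) := by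
    intro x
    by_cases hx : x ∈ S
    · obtain ⟨_, l, h1, h2, h3⟩ := hS x hx
      exact ⟨l, fun _ => ⟨fun i => by simpa using h1 i, h2, h3⟩⟩
    · exact ⟨fun _ => ∅, fun h => absurd h hx⟩
  choose lx hlx using hS'
  obtain ⟨T, hTS, hTne, hTdeg⟩ := prune n S lx 𝔏 (fun x hx => (hlx x hx).1) hSne
  set L : ℝ := (𝔏.card : ℝ) with hLdef
  set δ : ℝ := (S.card : ℝ) / (2 * L) with hδ
  have hLpos : 1 ≤ L := by
    obtain ⟨x, hx⟩ := hSne
    have : 1 ≤ 𝔏.card := Finset.card_pos.2 ⟨_, (hlx x hx).1 ⟨0, by omega⟩⟩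
    rw [hLdef]
    exact_mod_cast this
  have hL0 : 0 < L := by linarith
  have hSδ : (S.card : ℝ) = 2 * L * δ := by rw [hδ]; field_simp
  have hden : (0 : ℝ) < 2 * k - 1 := by linarith
  have he0 : 0 ≤ (k : ℝ) / (2 * k - 1) := div_nonneg (by linarith) hden.le
  have hrp : (1 : ℝ) ≤ L ^ ((k : ℝ) / (2 * k - 1)) := Real.one_le_rpow hLpos he0
  have hgoal : δ ≤ 2 * n * L ^ ((k : ℝ) / (2 * k - 1)) →
      (S.card : ℝ) ≤ 4 * n * L ^ (1 + (k : ℝ) / (2 * k - 1)) := by
    intro h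
    rw [hSδ, Real.rpow_add hL0, Real.rpow_one]
    have := mul_le_mul_of_nonneg_left h (by linarith : 0 ≤ 2 * L)
    linarith
  apply hgoal
  rcases lt_or_ge δ 2 with hδ2 | hδ2
  · nlinarith
  by_contra hcon
  push Not at hcon
  obtain ⟨F, hF, hFr, hFc⟩ := iterate hs 𝔏 hL n hn2 T hTne lx
    (fun x hx => (hlx x (hTS hx)).1) (fun x hx => (hlx x (hTS hx)).2.1)
    (fun x hx => (hlx x (hTS hx)).2.2) δ (by linarith) hTdeg (k - 1) (by omega)
  obtain ⟨hFL, _⟩ := step hs 𝔏 hL n hn2 T lx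
    (fun x hx => (hlx x (hTS hx)).1) (fun x hx => (hlx x (hTS hx)).2.1)
    (fun x hx => (hlx x (hTS hx)).2.2) δ (by linarith) hTdeg F hF (2 * (k - 1 + 1)) hFr (by omega)
  have hmain : δ * (((δ - 1) * δ) / (n * L)) ^ (k - 1) ≤ L := hFc.trans hFL
  exact absurd (numeric n k hk hn2 L δ hLpos hδ2 hmain) (not_le.2 hcon)

end core

/-- **Main theorem.** For `1 ≤ k`, `2 k ≤ n`, every set of exactly `L` lines of a finite simple
matroid has at most `4 n L ^ (3 / 2 + 1 / (4 k - 2))` joints of dimension `n`.  Consequently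

* for every `n ≥ 4` there is `ε > 0` with `J n L < L ^ (2 - ε)` for all large `L` (the negated
  form of Q1), more precisely `J n L < L ^ (3 / 2 + 1 / (4 ⌊n / 2⌋ - 2) + ε)` for every `ε > 0` and
  all large `L`;
* for every `ε > 0` and all large `n`, `J n L < L ^ (3 / 2 + ε)` for all large `L`. -/
theorem result :
    (∀ n k L : ℕ, 1 ≤ k → 2 * k ≤ n → ∀ m ∈ jointCounts n L,
      (m : ℝ) ≤ 4 * n * (L : ℝ) ^ (3 / 2 + 1 / (4 * (k : ℝ) - 2))) ∧
    (∀ n : ℕ, 4 ≤ n → ∃ ε : ℝ, 0 < ε ∧ ∃ L₀ : ℕ, ∀ L ≥ L₀,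
      (J n L : ℝ) < (L : ℝ) ^ (2 - ε)) ∧
    (∀ n : ℕ, 4 ≤ n → ∀ ε : ℝ, 0 < ε → ∃ L₀ : ℕ, ∀ L ≥ L₀,
      (J n L : ℝ) < (L : ℝ) ^ (3 / 2 + 1 / (4 * ((n / 2 : ℕ) : ℝ) - 2) + ε)) ∧
    (∀ ε : ℝ, 0 < ε → ∃ n₀ : ℕ, ∀ n ≥ n₀, ∃ L₀ : ℕ, ∀ L ≥ L₀,
      (J n L : ℝ) < (L : ℝ) ^ (3 / 2 + ε)) := by
  have hexp : ∀ k : ℕ, 1 ≤ k → 1 + (k : ℝ) / (2 * k - 1) = 3 / 2 + 1 / (4 * (k : ℝ) - 2) := by
    intro k hk
    have hk' : (1 : ℝ) ≤ k := by exact_mod_cast hk
    have h1 : (2 * (k : ℝ) - 1) ≠ 0 := by linarith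
    have h2 : (4 * (k : ℝ) - 2) = 2 * (2 * (k : ℝ) - 1) := by ring
    rw [h2]
    have h3 : (k : ℝ) = (1 + (2 * (k : ℝ) - 1)) / 2 := by ring
    generalize 2 * (k : ℝ) - 1 = u at h1 h3 ⊢
    rw [h3]
    field_simp
    ring
  have hmain : ∀ n k L : ℕ, 1 ≤ k → 2 * k ≤ n → ∀ m ∈ jointCounts n L,
      (m : ℝ) ≤ 4 * n * (L : ℝ) ^ (3 / 2 + 1 / (4 * (k : ℝ) - 2)) := by
    rintro n k L hk hkn m ⟨α, M, 𝔏, hfin, hs, hline, hLfin, hLcard, hm⟩
    have hSfin : {x | IsJoint M 𝔏 n x}.Finite :=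
      hfin.ground_finite.subset (fun x hx => hx.1)
    have hb := bound hs hLfin.toFinset (fun l hl => hline l (by simpa using hl)) n k hk hkn
      hSfin.toFinset (fun x hx => by simpa using hx)
    rw [← Set.ncard_eq_toFinset_card _ hSfin, ← Set.ncard_eq_toFinset_card _ hLfin, hm,
      hLcard, hexp k hk] at hb
    exact hb
  have hJ : ∀ n k L : ℕ, 1 ≤ k → 2 * k ≤ n →
      (J n L : ℝ) ≤ 4 * n * (L : ℝ) ^ (3 / 2 + 1 / (4 * (k : ℝ) - 2)) := by
    intro n k L hk hkn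
    rcases (jointCounts n L).eq_empty_or_nonempty with he | hne
    · rw [J, he]
      simp only [csSup_empty, bot_eq_zero', Nat.cast_zero]
      positivity
    · have hbdd : BddAbove (jointCounts n L) := by
        refine ⟨⌊4 * n * (L : ℝ) ^ (3 / 2 + 1 / (4 * (k : ℝ) - 2))⌋₊, ?_⟩
        intro m hm
        exact Nat.le_floor (hmain n k L hk hkn m hm)
      exact hmain n k L hk hkn _ (Nat.sSup_mem hne hbdd)
  -- absorbing the constant
  have habs : ∀ (C e ε : ℝ), 0 < ε → ∃ L₀ : ℕ, ∀ L ≥ L₀,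
      C * (L : ℝ) ^ e < (L : ℝ) ^ (e + ε) := by
    intro C e ε hε
    have h1 : Filter.Tendsto (fun L : ℕ => (L : ℝ) ^ ε) Filter.atTop Filter.atTop :=
      (tendsto_rpow_atTop hε).comp tendsto_natCast_atTop_atTop
    obtain ⟨L₁, hL₁⟩ := Filter.eventually_atTop.1 (h1.eventually_gt_atTop C)
    refine ⟨max L₁ 1, fun L hL => ?_⟩
    have hLpos : (0 : ℝ) < L := by
      have : 1 ≤ L := le_trans (le_max_right _ _) hL
      exact_mod_cast this
    have h2 := hL₁ L (le_trans (le_max_left _ _) hL)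
    rw [Real.rpow_add hLpos, mul_comm ((L : ℝ) ^ e)]
    exact mul_lt_mul_of_pos_right h2 (Real.rpow_pos_of_pos hLpos _)
  have hthree : ∀ n : ℕ, 4 ≤ n → ∀ ε : ℝ, 0 < ε → ∃ L₀ : ℕ, ∀ L ≥ L₀,
      (J n L : ℝ) < (L : ℝ) ^ (3 / 2 + 1 / (4 * ((n / 2 : ℕ) : ℝ) - 2) + ε) := by
    intro n hn ε hε
    obtain ⟨L₀, hL₀⟩ := habs (4 * n) (3 / 2 + 1 / (4 * ((n / 2 : ℕ) : ℝ) - 2)) ε hε
    exact ⟨L₀, fun L hL => lt_of_le_of_lt (hJ n (n / 2) L (by omega) (by omega)) (hL₀ L hL)⟩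
  refine ⟨hmain, ?_, hthree, ?_⟩
  · intro n hn
    obtain ⟨L₀, hL₀⟩ := hthree n hn (1 / 6) (by norm_num)
    refine ⟨1 / 6, by norm_num, max L₀ 1, fun L hL => ?_⟩
    refine lt_of_lt_of_le (hL₀ L (le_trans (le_max_left _ _) hL)) ?_
    have hL1 : (1 : ℝ) ≤ L := by
      have : 1 ≤ L := le_trans (le_max_right _ _) hL
      exact_mod_cast this
    apply Real.rpow_le_rpow_of_exponent_le hL1
    have hn2 : (2 : ℝ) ≤ ((n / 2 : ℕ) : ℝ) := by exact_mod_cast (by omega : 2 ≤ n / 2)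
    have h3 : 1 / (4 * ((n / 2 : ℕ) : ℝ) - 2) ≤ 1 / 6 := by
      apply one_div_le_one_div_of_le (by norm_num)
      linarith
    linarith
  · intro ε hε
    obtain ⟨N, hN⟩ := exists_nat_gt (1 / ε)
    refine ⟨2 * (N + 2), fun n hn => ?_⟩
    obtain ⟨L₀, hL₀⟩ := hthree n (by omega) (ε / 2) (by positivity)
    refine ⟨max L₀ 1, fun L hL => ?_⟩
    refine lt_of_lt_of_le (hL₀ L (le_trans (le_max_left _ _) hL)) ?_
    have hL1 : (1 : ℝ) ≤ L := by
      have : 1 ≤ L := le_trans (le_max_right _ _) hL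
      exact_mod_cast this
    apply Real.rpow_le_rpow_of_exponent_le hL1
    have hn2 : (N : ℝ) + 2 ≤ ((n / 2 : ℕ) : ℝ) := by
      exact_mod_cast (by omega : N + 2 ≤ n / 2)
    have hN0 : 0 < 1 / ε := by positivity
    have h3 : 1 / (4 * ((n / 2 : ℕ) : ℝ) - 2) ≤ ε / 2 := by
      rw [div_le_div_iff₀ (by linarith) (by norm_num)]
      have h4 : 1 < ε * N := by
        rw [div_lt_iff₀ hε] at hN
        linarith
      nlinarith
    linarith

end Pool.Agent.Y249.Joints.ExponentThreeHalves
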